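import Pool.Agent.Helper89.MS.Sheet

/-! MS, package B7 (MP_8815b4_co): `PUSHStm → LAYStm → UVStm → B7Stm`. -/

open Finset

namespace MS

namespace H67

theorem mem_Ulev {L m : ℕ} {F : Finset (Finset ℕ)} {a : ℕ} {y : Finset ℕ} :
    y ∈ Ulev L m F a ↔ y ⊆ Ico (L + 1) m ∧ ∃ A, A ⊆ range L ∧ #A = a ∧ A ∪ y ∈ F := by
  classical
  unfold Ulev
  rw [mem_filter, mem_powerset]

theorem mem_Vlev {L m : ℕ} {F : Finset (Finset ℕ)} {a : ℕ} {y : Finset ℕ} :
    y ∈ Vlev L m F a ↔ y ⊆ Ico (L + 1) m ∧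
      ∃ A, A ⊆ range L ∧ #A + 1 = a ∧ insert L (A ∪ y) ∈ F := by
  classical
  unfold Vlev
  rw [mem_filter, mem_powerset]

theorem mem_lay {n0 a : ℕ} {Z : Finset (Finset ℕ)} {S : Finset ℕ} :
    S ∈ lay n0 a Z ↔ ∃ A, A ⊆ range n0 ∧ #A = a ∧ ∃ z ∈ Z, A ∪ z = S := by
  unfold lay
  rw [mem_image]
  constructor
  · rintro ⟨p, hp, rfl⟩
    rw [mem_product, mem_powersetCard] at hp
    exact ⟨p.1, hp.1.1, hp.1.2, p.2, hp.2, rfl⟩
  · rintro ⟨A, hA, hc, z, hz, rfl⟩
    exact ⟨(A, z), mem_product.mpr ⟨mem_powersetCard.mpr ⟨hA, hc⟩, hz⟩, rfl⟩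

end H67

open H67 in
theorem b7 : PUSHStm → LAYStm → UVStm → B7Stm := by
  intro hP hL hU t m L a v F ht hv hG hLm hS ha hex
  by_contra hne
  obtain ⟨hU1, -, -, -, -, -, hpos⟩ := hU t m L v F hG hLm hS
  have hle : ∀ b, ∀ y ∈ Ulev L m F b, b ≤ L := by
    intro b y hy
    obtain ⟨-, A, hA, hc, -⟩ := mem_Ulev.mp hy
    have := card_le_card hA
    rw [card_range, hc] at this
    exact this
  -- the main inequality
  have key : ∀ a b, 1 ≤ a → a ≠ b → a + b = L + t →
      (L.choose (a - 1) : ℝ) * wz v a (Ulev L m F a \ Vlev L m F a) ≤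
        (L.choose b : ℝ) * wz v b (Ulev L m F b \ Vlev L m F b) := by
    intro a b ha hab hs
    set Ya := Ulev L m F a \ Vlev L m F a with hYa
    set Yb := Ulev L m F b \ Vlev L m F b with hYb
    have hTI := hP t m L a b v F (by omega) hG hLm hS ha hab hs
    have hmx := hG.mx _ hTI
    have hYa' : ∀ z ∈ Ya, z ⊆ Ico (L + 1) m := fun z hz => (mem_Ulev.mp (mem_sdiff.mp hz).1).1
    have hYb' : ∀ z ∈ Yb, z ⊆ Ico (L + 1) m := fun z hz => (mem_Ulev.mp (mem_sdiff.mp hz).1).1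
    have hsub : lay L b Yb ⊆ F := by
      intro S hS'
      obtain ⟨A, hA, hc, z, hz, rfl⟩ := mem_lay.mp hS'
      exact hU1 b z (mem_sdiff.mp hz).1 A hA hc
    have hdis : Disjoint (F \ lay L b Yb) (lay L (a - 1) (Ya.image (insert L))) := by
      rw [Finset.disjoint_left]
      intro S hS1 hS2
      obtain ⟨A, hA, hc, z, hz, rfl⟩ := mem_lay.mp hS2
      obtain ⟨y, hy, rfl⟩ := mem_image.mp hz
      refine (mem_sdiff.mp hy).2 (mem_Vlev.mpr ⟨hYa' y hy, A, hA, by omega, ?_⟩)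
      rw [union_insert] at hS1
      exact (mem_sdiff.mp hS1).1
    have hw : wt v ((F \ lay L b Yb) ∪ lay L (a - 1) (Ya.image (insert L))) =
        wt v F - wt v (lay L b Yb) + wt v (lay L (a - 1) (Ya.image (insert L))) := by
      unfold wt
      rw [sum_union hdis, ← sum_sdiff hsub (f := fun S => v #S)]
      ring
    rw [hw, hL L b v Yb (fun z hz x hx => by
      have := mem_Ico.mp (hYb' z hz hx); omega),
      hL L (a - 1) v (Ya.image (insert L)) (fun z hz x hx => by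
        obtain ⟨y, hy, rfl⟩ := mem_image.mp hz
        rcases mem_insert.mp hx with rfl | hx
        · exact le_rfl
        · have := mem_Ico.mp (hYa' y hy hx); omega)] at hmx
    have hwz : wz v (a - 1) (Ya.image (insert L)) = wz v a Ya := by
      have hnm : ∀ y ∈ Ya, L ∉ y := fun y hy h => by
        have := mem_Ico.mp (hYa' y hy h); omega
      unfold wz
      rw [sum_image]
      · refine sum_congr rfl fun y hy => ?_
        rw [card_insert_of_notMem (hnm y hy)]
        congr 1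
        omega
      · intro y hy y' hy' h
        rw [← erase_insert (hnm y hy), ← erase_insert (hnm y' hy')]
        exact congrArg (fun s => s.erase L) h
    rw [hwz] at hmx
    linarith
  have hpw : ∀ a, 1 ≤ a → (∃ y ∈ Ulev L m F a, y ∉ Vlev L m F a) →
      0 < wz v a (Ulev L m F a \ Vlev L m F a) := by
    intro a ha ⟨y, hy, hy'⟩
    obtain ⟨z, hz, hz', hvz⟩ := hpos a ha y hy hy'
    unfold wz
    exact sum_pos' (fun i _ => hv _) ⟨z, mem_sdiff.mpr ⟨hz, hz'⟩, hvz⟩
  have haL : a ≤ L := by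
    obtain ⟨y, hy, -⟩ := hex
    exact hle a y hy
  obtain ⟨b, hb⟩ : ∃ b, a + b = L + t := ⟨L + t - a, by omega⟩
  have hab : a ≠ b := by omega
  have hb1 : 1 ≤ b := by omega
  have h1 := key a b ha hab hb
  have h2 := key b a hb1 hab.symm (by omega)
  have hwa := hpw a ha hex
  set wa := wz v a (Ulev L m F a \ Vlev L m F a)
  set wb := wz v b (Ulev L m F b \ Vlev L m F b)
  have hca : 0 < (L.choose (a - 1) : ℝ) := by exact_mod_cast Nat.choose_pos (by omega)
  have hcwb : 0 < (L.choose b : ℝ) * wb := lt_of_lt_of_le (mul_pos hca hwa) h1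
  have hcb : 0 < (L.choose b : ℝ) := by
    rcases (Nat.cast_nonneg (α := ℝ) (L.choose b)).lt_or_eq with h | h
    · exact h
    · rw [← h, zero_mul] at hcwb
      exact absurd hcwb (lt_irrefl _)
  have hwb : 0 < wb := (pos_iff_pos_of_mul_pos hcwb).mp hcb
  have hbL : b ≤ L := by
    by_contra h
    rw [Nat.choose_eq_zero_of_lt (not_le.mp h), Nat.cast_zero] at hcb
    exact lt_irrefl _ hcb
  -- ratios of binomial coefficients
  have ra : (a : ℝ) * L.choose a = ((L : ℝ) - a + 1) * L.choose (a - 1) := by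
    have := Nat.choose_succ_right_eq L (a - 1)
    rw [Nat.sub_add_cancel ha] at this
    have h3 : ((L - (a - 1) : ℕ) : ℝ) = (L : ℝ) - a + 1 := by
      rw [Nat.cast_sub (by omega), Nat.cast_sub ha, Nat.cast_one]
      ring
    have h4 : ((L.choose a * a : ℕ) : ℝ) = ((L.choose (a - 1) * (L - (a - 1)) : ℕ) : ℝ) := by
      exact_mod_cast this
    rw [Nat.cast_mul, Nat.cast_mul, h3] at h4
    linarith
  have rb : (b : ℝ) * L.choose b = ((L : ℝ) - b + 1) * L.choose (b - 1) := by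
    have := Nat.choose_succ_right_eq L (b - 1)
    rw [Nat.sub_add_cancel hb1] at this
    have h3 : ((L - (b - 1) : ℕ) : ℝ) = (L : ℝ) - b + 1 := by
      rw [Nat.cast_sub (by omega), Nat.cast_sub hb1, Nat.cast_one]
      ring
    have h4 : ((L.choose b * b : ℕ) : ℝ) = ((L.choose (b - 1) * (L - (b - 1)) : ℕ) : ℝ) := by
      exact_mod_cast this
    rw [Nat.cast_mul, Nat.cast_mul, h3] at h4
    linarith
  have hcb' : 0 < (L.choose (b - 1) : ℝ) := by exact_mod_cast Nat.choose_pos (by omega)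
  have hsum : (a : ℝ) + b = L + t := by exact_mod_cast hb
  have ha0 : (1 : ℝ) ≤ a := by exact_mod_cast ha
  have hb0 : (1 : ℝ) ≤ b := by exact_mod_cast hb1
  have ht0 : (2 : ℝ) ≤ t := by exact_mod_cast ht
  have haL' : (a : ℝ) ≤ L := by exact_mod_cast haL
  have hbL' : (b : ℝ) ≤ L := by exact_mod_cast hbL
  -- a * C(a-1) * wa ≤ b * C(b) ... 
  have e1 : (b : ℝ) * (L.choose (a - 1) * wa) ≤ ((L : ℝ) - b + 1) * (L.choose (b - 1) * wb) := by
    calc (b : ℝ) * (L.choose (a - 1) * wa) ≤ b * (L.choose b * wb) := by gcongr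
      _ = ((b : ℝ) * L.choose b) * wb := by ring
      _ = _ := by rw [rb]; ring
  have e2 : (a : ℝ) * (L.choose (b - 1) * wb) ≤ ((L : ℝ) - a + 1) * (L.choose (a - 1) * wa) := by
    calc (a : ℝ) * (L.choose (b - 1) * wb) ≤ a * (L.choose a * wa) := by gcongr
      _ = ((a : ℝ) * L.choose a) * wa := by ring
      _ = _ := by rw [ra]; ring
  have p1 : 0 < (L.choose (a - 1) : ℝ) * wa := mul_pos hca hwa
  have p2 : 0 < (L.choose (b - 1) : ℝ) * wb := mul_pos hcb' hwb
  set X := (L.choose (a - 1) : ℝ) * wa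
  set Y := (L.choose (b - 1) : ℝ) * wb
  -- (L - b + 1) = a - t + 1 ≤ a - 1, (L - a + 1) ≤ b - 1
  have f1 : (b : ℝ) * X ≤ (a - 1) * Y := by
    refine e1.trans ?_
    have : (L : ℝ) - b + 1 ≤ a - 1 := by linarith
    exact mul_le_mul_of_nonneg_right this p2.le
  have f2 : (a : ℝ) * Y ≤ (b - 1) * X := by
    refine e2.trans ?_
    have : (L : ℝ) - a + 1 ≤ b - 1 := by linarith
    exact mul_le_mul_of_nonneg_right this p1.le
  nlinarith

end MS
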